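import Pool.Agent.H70.KP.Stm

set_option autoImplicit false

/-! MP_257582_lc: the case facts, the alternatives and the duality. -/

namespace Pool.Agent.L0h80.Karp

open Pool.Agent.H119R2.Kp Pool.Agent.N593.Karp Pool.Agent.L0h93.Karp Pool.Agent.L0h93.Karp.M5
open Pool.Agent.H70.KP

variable {n q : ℕ} {P : SimpleGraph (Fin n) → Prop}

/-- **the alternative for the kinds `0, …, 3`** -/
theorem dc11 (hP : GP n q P) (hS : Star n P) {r p : ℕ} (har : Ar n q r p) (c : ℕ) (hc : c < 4) :
    DiscF P r p (ky r p c) ∨ HubF P r p (ky r p c) := by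
  have hky : ky r p c = p ∨ ky r p c = p + r ∨ ky r p c = 2 * p ∨ ky r p c = 2 * p + r := by
    rcases c with _ | _ | _ | _ | c
    · exact Or.inl rfl
    · exact Or.inr (Or.inl rfl)
    · exact Or.inr (Or.inr (Or.inl rfl))
    · exact Or.inr (Or.inr (Or.inr rfl))
    · omega
  obtain ⟨p', r', hp', hp20, hn, hr, hq⟩ := har.a11 (ky r p c) hky
  have : Fact p'.Prime := ⟨hp'⟩
  have hp0 := har.hp.pos
  have hy0 : 0 < ky r p c := by omega
  have hrest : ∀ A : Fin 6 → Bool, szA (sz 5 r p) A true = ky r p c →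
      szA (sz 5 r p) A false = r' + 11 * p' := by
    intro A hA
    have h2 := szA_add (sz 5 r p) A
    rw [sum_sz5, hA] at h2
    have := har.hn
    omega
  rcases hv01 P ![ky r p c, r' + 11 * p'] (pat [(0, 0), (1, 1)]) with h | h
  · left
    intro A Γ hA hΓ
    have h2 := disc_le hP (sz 5 r p) A Γ hΓ
    rw [hA, hrest A hA, h] at h2
    rcases hv01 P (sz 5 r p) Γ with h3 | h3
    · exact h3
    · rw [h3] at h2
      norm_num at h2
  · right
    intro A Γ j hA hj hcl hh
    have h4 := E.hub11 hP hS p' (ky r p c) r' (by omega) hy0 hn hq h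
    have h5 := hub_le hP (sz 5 r p) A Γ j r' (ky r p c) (11 * p') hj
      (le_sz5 hr har.hrp _) hA (hrest A hA) hcl hh
    rw [h4] at h5
    rcases hv01 P (sz 5 r p) Γ with h3 | h3
    · rw [h3] at h5
      norm_num at h5
    · exact h3

theorem pb_cpl (g a b : ℕ) (ha : a < 6) (hb : b < 6) : pb (cpl g) a b = !(pb g a b) :=
  pm_cpl g ⟨a, ha⟩ ⟨b, hb⟩

theorem cpl_cpl (g : ℕ) : cpl (cpl g) = g := by
  unfold cpl
  rw [Nat.xor_assoc, Nat.xor_self, Nat.xor_zero]

theorem okCd_cpl {c A g : ℕ} (h : okDc c A g = true) : okCd c A (cpl g) = true := by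
  unfold okDc at h
  unfold okCd
  simp only [Bool.and_eq_true, List.all_eq_true, List.mem_range, Bool.or_eq_true,
    Bool.not_eq_true'] at h ⊢
  refine ⟨h.1, fun a ha b hb => ?_⟩
  rcases h.2 a ha b hb with h3 | h3
  · exact Or.inl h3
  · right
    rw [pb_cpl g a b ha hb, h3]
    rfl

theorem okDc_cpl {c A g : ℕ} (h : okCd c A g = true) : okDc c A (cpl g) = true := by
  unfold okCd at h
  unfold okDc
  simp only [Bool.and_eq_true, List.all_eq_true, List.mem_range, Bool.or_eq_true,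
    Bool.not_eq_true'] at h ⊢
  refine ⟨h.1, fun a ha b hb => ?_⟩
  rcases h.2 a ha b hb with h3 | h3
  · exact Or.inl h3
  · right
    rw [pb_cpl g a b ha hb, h3]
    rfl

theorem okCh_cpl {c A j g : ℕ} (h : okHb c A j g = true) : okCh c A j (cpl g) = true := by
  unfold okHb at h
  unfold okCh
  simp only [Bool.and_eq_true, List.all_eq_true, List.mem_range, Bool.or_eq_true,
    Bool.not_eq_true', decide_eq_true_eq] at h ⊢
  obtain ⟨⟨⟨⟨h1, hj⟩, hjA⟩, h2⟩, h4⟩ := h
  refine ⟨⟨⟨⟨h1, hj⟩, hjA⟩, fun a ha b hb => ?_⟩, fun b hb => ?_⟩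
  · rcases h2 a ha b hb with h3 | h3
    · exact Or.inl h3
    · right
      rw [pb_cpl g a b ha hb, h3]
      rfl
  · rcases h4 b hb with h3 | h3
    · exact Or.inl h3
    · right
      rw [pb_cpl g j b hj hb, h3]
      rfl

theorem okHb_cpl {c A j g : ℕ} (h : okCh c A j g = true) : okHb c A j (cpl g) = true := by
  unfold okCh at h
  unfold okHb
  simp only [Bool.and_eq_true, List.all_eq_true, List.mem_range, Bool.or_eq_true,
    Bool.not_eq_true', decide_eq_true_eq] at h ⊢
  obtain ⟨⟨⟨⟨h1, hj⟩, hjA⟩, h2⟩, h4⟩ := h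
  refine ⟨⟨⟨⟨h1, hj⟩, hjA⟩, fun a ha b hb => ?_⟩, fun b hb => ?_⟩
  · rcases h2 a ha b hb with h3 | h3
    · exact Or.inl h3
    · right
      rw [pb_cpl g a b ha hb, h3]
      rfl
  · rcases h4 b hb with h3 | h3
    · exact Or.inl h3
    · right
      rw [pb_cpl g j b hj hb, h3]
      rfl

theorem fV_cpl (hP : GP n q P) {r p : ℕ} (hn : r + 5 * p = n) (g : ℕ) :
    fV (dual P) r p g = 1 - fV P r p (cpl g) := by
  have h := fV_dual hP hn (cpl g)
  rwa [cpl_cpl] at h

theorem hc_hd (hP : GP n q P) {r p : ℕ} (hn : r + 5 * p = n) (c : ℕ) (b : Bool)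
    (h : HC P r p c b) : HD (dual P) r p c (!b) := by
  cases b
  · intro A j g hg
    rw [fV_cpl hP hn g]
    have h1 : ∀ A j g, okCh c A j g = true → fV P r p g = 0 := h
    rw [h1 A j (cpl g) (okCh_cpl hg), sub_zero]
  · intro A g hg
    rw [fV_cpl hP hn g]
    have h1 : ∀ A g, okCd c A g = true → fV P r p g = 1 := h
    rw [h1 A (cpl g) (okCd_cpl hg), sub_self]

theorem hd_hc (hP : GP n q P) {r p : ℕ} (hn : r + 5 * p = n) (c : ℕ) (b : Bool)
    (h : HD P r p c b) : HC (dual P) r p c (!b) := by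
  cases b
  · intro A g hg
    rw [fV_cpl hP hn g]
    have h1 : ∀ A g, okDc c A g = true → fV P r p g = 0 := h
    rw [h1 A (cpl g) (okDc_cpl hg), sub_zero]
  · intro A j g hg
    rw [fV_cpl hP hn g]
    have h1 : ∀ A j g, okHb c A j g = true → fV P r p g = 1 := h
    rw [h1 A j (cpl g) (okHb_cpl hg), sub_self]

/-- **duality of the facts** -/
theorem t_DU : S_DU := fun _ _ _ hP _ _ hn c b => ⟨hc_hd hP hn c b, hd_hc hP hn c b⟩

theorem hd_or (hP : GP n q P) (hS : Star n P) {r p : ℕ} (har : Ar n q r p) (c : ℕ) (hc : c < 4) :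
    HD P r p c false ∨ HD P r p c true := by
  rcases dc11 hP hS har c hc with h | h
  · exact Or.inl fun A g hg => disc r p c A g h hg
  · exact Or.inr fun A j g hg => hub r p c A j g h hg

theorem hd_hc' (hP : GP n q P) {r p : ℕ} (hn : r + 5 * p = n) (c : ℕ) (b : Bool)
    (h : HD (dual P) r p c b) : HC P r p c (!b) := by
  have key : ∀ g, fV P r p g = 1 - fV (dual P) r p (cpl g) := by
    intro g
    rw [fV_dual hP hn]
    ring
  cases b
  · intro A g hg
    rw [key g]
    have h1 : ∀ A g, okDc c A g = true → fV (dual P) r p g = 0 := h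
    rw [h1 A (cpl g) (okDc_cpl hg), sub_zero]
  · intro A j g hg
    rw [key g]
    have h1 : ∀ A j g, okHb c A j g = true → fV (dual P) r p g = 1 := h
    rw [h1 A j (cpl g) (okHb_cpl hg), sub_self]

/-- **one of the two alternatives holds** -/
theorem t_OR : S_OR := by
  intro n q P hP hS r p har c hc
  refine ⟨hd_or hP hS har c hc, ?_⟩
  rcases hd_or hP.dual' hS.dual' har c hc with h | h
  · exact Or.inr (hd_hc' hP har.hn c false h)
  · exact Or.inl (hd_hc' hP har.hn c true h)

/-- **the forced values are right** -/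
theorem t_F1 : S_F1 := by
  intro n q P hP hS r p har D C hcs m
  have hp0 := har.hp.pos
  constructor
  · intro h
    unfold okF1 at h
    simp only [Bool.or_eq_true, List.any_eq_true, List.mem_range, Bool.and_eq_true] at h
    rcases h with ((h | ⟨i, _, h⟩) | ⟨c, hc, ⟨h1, h2⟩, A, _, j, _, h⟩) |
      ⟨c, hc, ⟨h1, h2⟩, A, _, h⟩
    · exact sig1 hP hS har m h
    · exact uni hP hS r p har.hr hp0 har.hn i m h
    · have h3 := hcs.1 c hc h1
      rw [h2] at h3
      exact h3 A j m h
    · have h3 := hcs.2 c hc h1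
      rw [h2] at h3
      exact h3 A m h
  · intro h
    unfold okF0 at h
    simp only [Bool.or_eq_true, List.any_eq_true, List.mem_range, Bool.and_eq_true,
      Bool.not_eq_true'] at h
    rcases h with ((h | ⟨i, _, h⟩) | ⟨c, hc, ⟨h1, h2⟩, A, _, h⟩) |
      ⟨c, hc, ⟨h1, h2⟩, A, _, j, _, h⟩
    · exact sig0 hP hS har m h
    · exact zer hP hS r p har.hr hp0 i m h
    · have h3 := hcs.1 c hc h1
      rw [h2] at h3
      exact h3 A m h
    · have h3 := hcs.2 c hc h1
      rw [h2] at h3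
      exact h3 A j m h

end Pool.Agent.L0h80.Karp
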