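import Pool.Agent.H70.KP.Stm
import Pool.Agent.L0h93.Karp.Fin5

set_option autoImplicit false

/-! MP_257582_lc: the core statement from the leaves of the case tree.

The eight alternatives are `D(c)`, `C(c)` for the kinds `c = 0, …, 3` (sizes `p`, `p + r`, `2 p`,
`2 p + r`). The cubes in `cubes` and their duals cover all `2 ^ 8` possibilities. -/

namespace Pool.Agent.L0h80.Karp

open Pool.Agent.H119R2.Kp Pool.Agent.N593.Karp Pool.Agent.L0h93.Karp Pool.Agent.L0h93.Karp.M5
open Pool.Agent.H70.KP

/-- there is no property in the cube `D`, `C` -/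
def S_LEAF (D C : ℕ) : Prop := ∀ (n q : ℕ) (P : SimpleGraph (Fin n) → Prop), GP n q P → Star n P →
  ∀ r p : ℕ, Ar n q r p → Cse P r p D C → False

/-- the natural case, first part -/
def S_NAT : Prop := ∀ (n q : ℕ) (P : SimpleGraph (Fin n) → Prop), GP n q P → Star n P →
  ∀ r p : ℕ, Ar n q r p → Cse P r p 85 255 → fV P r p 0xf1 = 0 → fV P r p 0x1fff0e = 1 → False

/-- the natural case, second part -/
def S_NAT1 : Prop := ∀ (n q : ℕ) (P : SimpleGraph (Fin n) → Prop), GP n q P → Star n P →
  ∀ r p : ℕ, Ar n q r p → Cse P r p 85 255 → fV P r p 0xf1 = 1 → False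

/-- the cubes of the leaves -/
def cubes : List (ℕ × ℕ) := [
  (21, 21), (21, 53), (53, 5), (21, 29), (85, 125), (85, 253), (213, 61), (53, 13), (13, 1),
  (5, 7), (21, 31), (85, 127), (213, 63), (53, 15), (13, 3), (87, 21), (215, 21), (23, 53),
  (55, 5), (23, 29), (23, 61), (55, 13), (31, 5), (127, 21), (255, 85), (255, 213), (63, 53),
  (31, 13), (63, 29), (63, 61)]

/-- the cube `D` contains the values `v` -/
def inC (D : ℕ) (v : Fin 4 → Bool) : Bool :=
  (List.finRange 4).all fun c => !(D.testBit (2 * c.val)) || (D.testBit (2 * c.val + 1) == v c)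

/-- the values coded by a number -/
def vl (i : Fin 16) (c : Fin 4) : Bool := i.val.testBit c.val

theorem vl_surj : ∀ v : Fin 4 → Bool, ∃ i : Fin 16, vl i = v := by decide +kernel

theorem cover : ∀ i j : Fin 16, ((85, 255) :: cubes).any (fun x =>
    (inC x.1 (vl i) && inC x.2 (vl j)) ||
      (inC x.1 (fun c => !(vl j c)) && inC x.2 (fun c => !(vl i c)))) = true := by
  decide +kernel

variable {n q : ℕ} {P : SimpleGraph (Fin n) → Prop}

theorem cse_of {r p D C : ℕ} {v w : Fin 4 → Bool} (hv : ∀ c : Fin 4, HD P r p c.val (v c))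
    (hw : ∀ c : Fin 4, HC P r p c.val (w c)) (h1 : inC D v = true) (h2 : inC C w = true) :
    Cse P r p D C := by
  unfold inC at h1 h2
  rw [List.all_eq_true] at h1 h2
  refine ⟨fun c hc hk => ?_, fun c hc hk => ?_⟩
  · have h := h1 ⟨c, hc⟩ (List.mem_finRange _)
    simp only [hk, Bool.not_true, Bool.false_or, beq_iff_eq] at h
    rw [h]
    exact hv ⟨c, hc⟩
  · have h := h2 ⟨c, hc⟩ (List.mem_finRange _)
    simp only [hk, Bool.not_true, Bool.false_or, beq_iff_eq] at h
    rw [h]
    exact hw ⟨c, hc⟩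

/-- the natural cube from its two parts -/
theorem nat_leaf (hN : S_NAT) (hN1 : S_NAT1) (hdu : S_DU) : S_LEAF 85 255 := by
  intro n q P hP hS r p har hc
  rcases fV01 (P := P) r p 0xf1 with h | h
  · rcases fV01 (P := P) r p 0x1fff0e with h' | h'
    · refine hN1 n q (dual P) hP.dual' hS.dual' r p har ?_ ?_
      · have hdu' := hdu n q P hP r p har.hn
        refine cse_of (v := fun _ => false) (w := fun _ => true) (fun c => ?_) (fun c => ?_)
          (by decide) (by decide)
        · have h1 := hc.2 c.val c.isLt (by revert c; decide)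
          have h2 : ∀ c : Fin 4, (255 : ℕ).testBit (2 * c.val + 1) = true := by decide
          rw [h2 c] at h1
          exact (hdu' c.val true).1 h1
        · have h1 := hc.1 c.val c.isLt (by revert c; decide)
          have h2 : ∀ c : Fin 4, (85 : ℕ).testBit (2 * c.val + 1) = false := by decide
          rw [h2 c] at h1
          exact (hdu' c.val false).2 h1
      · have h1 := fV_dual hP har.hn 0x1fff0e
        have h2 : cpl 0x1fff0e = 0xf1 := by decide
        rw [h2, h'] at h1
        rw [h1]
        norm_num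
    · exact hN n q P hP hS r p har hc h h'
  · exact hN1 n q P hP hS r p har hc h

/-- **the core statement from the leaves** -/
theorem core5 (hor : S_OR) (hdu : S_DU) (hN : S_NAT) (hN1 : S_NAT1)
    (hl : ∀ x ∈ cubes, S_LEAF x.1 x.2) : S_CORE5 := by
  intro n q P hP hS r p har
  have hl' : ∀ x ∈ (85, 255) :: cubes, S_LEAF x.1 x.2 := by
    intro x hx
    rcases List.mem_cons.1 hx with rfl | hx
    · exact nat_leaf hN hN1 hdu
    · exact hl x hx
  have hor' := hor n q P hP hS r p har
  have hdu' := hdu n q P hP r p har.hn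
  have hD : ∃ v : Fin 4 → Bool, ∀ c : Fin 4, HD P r p c.val (v c) := by
    have : ∀ c : Fin 4, ∃ b : Bool, HD P r p c.val b := fun c => by
      rcases (hor' c.val c.isLt).1 with h | h
      · exact ⟨false, h⟩
      · exact ⟨true, h⟩
    choose v hv using this
    exact ⟨v, hv⟩
  have hC : ∃ w : Fin 4 → Bool, ∀ c : Fin 4, HC P r p c.val (w c) := by
    have : ∀ c : Fin 4, ∃ b : Bool, HC P r p c.val b := fun c => by
      rcases (hor' c.val c.isLt).2 with h | h
      · exact ⟨false, h⟩
      · exact ⟨true, h⟩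
    choose v hv using this
    exact ⟨v, hv⟩
  obtain ⟨v, hv⟩ := hD
  obtain ⟨w, hw⟩ := hC
  obtain ⟨i, rfl⟩ := vl_surj v
  obtain ⟨j, rfl⟩ := vl_surj w
  have h := cover i j
  rw [List.any_eq_true] at h
  obtain ⟨x, hx, h⟩ := h
  rw [Bool.or_eq_true, Bool.and_eq_true, Bool.and_eq_true] at h
  rcases h with ⟨h1, h2⟩ | ⟨h1, h2⟩
  · exact hl' x hx n q P hP hS r p har (cse_of hv hw h1 h2)
  · exact hl' x hx n q (dual P) hP.dual' hS.dual' r p har
      (cse_of (fun c => (hdu' c.val (vl j c)).1 (hw c)) (fun c => (hdu' c.val (vl i c)).2 (hv c))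
        h1 h2)

end Pool.Agent.L0h80.Karp
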